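import Pool.Agent.H491R4.AC1

/-!
# The Liouville function at the values of arbitrary polynomials times linear factors, the constant terms of which are
members of automatic sets

An automatic set is the set of the integers whose digits in a base `b` are accepted by a finite automaton; those of more
than polylogarithmic size may have as few as `N ^ c` elements below `N`, with arbitrarily small `c > 0`.

Definitions used: in `Pool.Agent.H491R4.AC` (file `Pool/Agent/H491R4/AC1.lean`): `aut b M N`: the finite set of the integers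
`0 ≤ v < N` whose digits in base `b` (the least significant digit first) are accepted by the automaton `M`.
-/

set_option autoImplicit false

namespace Pool.Agent.Results.MP_d639b3_nt.AutomaticConstants

open Finset
open Pool.Agent.H491R4.AC (aut)

/-- The Liouville function on the integers, `λ(-m) = λ(m)` and `λ(0) = 0`. -/
def lam (m : ℤ) : ℤ := if m = 0 then 0 else (-1) ^ ArithmeticFunction.cardFactors m.natAbs

/-- The sum of `λ(F(t))` over the integers `t` with `u ≤ t ≤ v` and `t ≡ r mod q`, where `F` is the product of the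
polynomial `f` and of the polynomials `α i T + a i`, `i ∈ I`. -/
noncomputable def lamSum {s : ℕ} (f : Polynomial ℤ) (α : Fin s → ℕ) (a : Fin s → ℤ) (I : Finset (Fin s)) (q : ℕ)
    (r u v : ℤ) : ℤ :=
  ∑ n ∈ (Icc u v).filter (fun n => n ≡ r [ZMOD q]),
    lam ((f * ∏ i ∈ I, (Polynomial.C (α i : ℤ) * Polynomial.X + Polynomial.C (a i))).eval n)

/-- All the sums are small: for all `l`, all nonempty sets `I` of indices, all residue classes `r` modulo `q ≤ k ^ κ` and
all integers `u`, `v` with `α i |u| ≤ B N` and `α i |v| ≤ B N` for all `i ∈ I`, the sum of `λ(F(t))` over the `t` with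
`u ≤ t ≤ v` and `t ≡ r mod q` is at most `N / k ^ U` in absolute value, where `F = f l * ∏ i ∈ I, (α i T + a i)`. -/
def Small (B κ U N k : ℕ) {s L : ℕ} (f : Fin L → Polynomial ℤ) (α : Fin s → ℕ) (a : Fin s → ℤ) : Prop :=
  ∀ l, ∀ I : Finset (Fin s), I.Nonempty → ∀ q : ℕ, 1 ≤ q → q ≤ k ^ κ → ∀ r u v : ℤ,
    (∀ i ∈ I, (α i : ℤ) * |u| ≤ B * N ∧ (α i : ℤ) * |v| ≤ B * N) →
    |((lamSum (f l) α a I q r u v : ℤ) : ℝ)| ≤ N / (k : ℝ) ^ U

open Classical in
/-- Let finitely many automatic sets `A 1, ..., A r` be fixed: `A j` is the set of the integers whose digits in base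
`b j ≥ 2` are accepted by the finite automaton `M j`; suppose that they all have more than polylogarithmic size: for
every `e` there are infinitely many `N` such that `A j` has more than `(log N) ^ e` elements below `N`. Let `B`, `κ` and `U` be
fixed, let `N` be large, `k` the integral part of `log N`, and let `2 ^ s ≤ k ^ κ`. For `i < s` let `t i` be one of the indices
`1, ..., r`, and let `|c i| ≤ B N`, `γ i ≠ 0` with `|γ i| ≤ B` and `α i ≥ 1` be arbitrary integers; let `f l`, where `l` ranges
over at most `k ^ κ` indices, be arbitrary polynomials with integer coefficients (of any degree). Then for all the tuples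
`(v 1, ..., v s)`, where `v i` is an element of `A (t i)` smaller than `N`, up to a proportion of `1 / k ^ U` of them, the
integers `a i = c i + γ i v i` have the following property: `|∑ λ(F(t))| ≤ N / k ^ U` for all `l` and all nonempty sets `I`
of indices, where `F = f l * ∏ i ∈ I, (α i T + a i)`, the sum over the `t ≡ r mod q` in an arbitrary interval `[u, v]` with
`α i |u|, α i |v| ≤ B N` for all `i ∈ I`, for all residue classes `r` modulo all `q ≤ k ^ κ`. -/
theorem result {r : ℕ} {σ : Fin r → Type} [∀ j, Fintype (σ j)] (b : Fin r → ℕ) (hb : ∀ j, 2 ≤ b j)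
    (M : ∀ j, DFA ℕ (σ j))
    (hS : ∀ j, ∀ e : ℕ, ∃ᶠ N : ℕ in Filter.atTop, Real.log N ^ e < ((aut (b j) (M j) N).card : ℝ))
    (B κ U : ℕ) : ∃ N₀ : ℕ, ∀ N : ℕ, N₀ ≤ N → ∀ k : ℕ, k = ⌊Real.log (N : ℝ)⌋₊ → ∀ s L : ℕ,
    2 ^ s ≤ k ^ κ → L ≤ k ^ κ → ∀ t : Fin s → Fin r,
    ∀ c γ : Fin s → ℤ, (∀ i, |c i| ≤ B * N) → (∀ i, γ i ≠ 0 ∧ |γ i| ≤ B) → ∀ α : Fin s → ℕ, (∀ i, 1 ≤ α i) →
    ∀ f : Fin L → Polynomial ℤ,
      (((Fintype.piFinset fun i : Fin s => aut (b (t i)) (M (t i)) N).filter fun v =>
        ¬ Small B κ U N k f α (fun i => c i + γ i * v i)).card : ℝ) ≤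
      (∏ i, ((aut (b (t i)) (M (t i)) N).card : ℝ)) / (k : ℝ) ^ U := by
  obtain ⟨N₀, h0⟩ := Pool.Agent.H491R4.AC.aut_chowla b hb M hS B κ U
  refine ⟨N₀, fun N hN k hk s L hs hL t c γ hc hγ α hα f => ?_⟩
  have h1 := h0 N hN k hk s L hs hL t c γ hc hγ α hα f
  rw [Pool.Agent.R459.Fams.count_eq] at h1
  exact h1

end Pool.Agent.Results.MP_d639b3_nt.AutomaticConstants
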