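import Pool.Agent.R501.CP5

/-!
# Chowla's conjecture in progressions for arbitrary polynomials times a linear factor whose constant term is ANY integer
near almost all members of digit families

The theorem on one displaced factor along these families is in `Pool.Agent.R459.Fams2` (helper459).
-/

set_option autoImplicit false

namespace Pool.Agent.Results.MP_d639b3_nt.NearDigitFamilies

open Finset

open Classical in
/-- The number of the elements of the finite set `A` with the property `E`. -/
noncomputable def count {α : Type} (A : Finset α) (E : α → Prop) : ℝ := ((A.filter E).card : ℝ)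

/-! Rearrangements of given digits -/

/-- The `d i`, `i < k`, are digits in base `b`, and no digit is taken at more than `(1 - η) k` places. -/
structure Spread (b k : ℕ) (η : ℝ) (d : Fin k → ℕ) : Prop where
  lt : ∀ i, d i < b
  few : ∀ a, ((univ.filter fun i => d i = a).card : ℝ) ≤ (1 - η) * k

/-- The integer with the digit `d (σ i)` at the place `i`, for all `i < k`. -/
def V (b : ℕ) {k : ℕ} (d : Fin k → ℕ) (σ : Equiv.Perm (Fin k)) : ℕ := ∑ i : Fin k, d (σ i) * b ^ (i : ℕ)

/-! Palindromes -/

/-- `v` is a palindrome with exactly `k` digits in base `b`. -/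
def IsPalindrome (b k v : ℕ) : Prop :=
  b ^ (k - 1) ≤ v ∧ v < b ^ k ∧ ∀ j < k, v / b ^ j % b = v / b ^ (k - 1 - j) % b

open Classical in
/-- The number of the palindromes with `k` digits in base `b` which have the property `E`. -/
noncomputable def num (b k : ℕ) (E : ℕ → Prop) : ℕ :=
  ((range (b ^ k)).filter (fun v => IsPalindrome b k v ∧ E v)).card

/-! Random integers with independent pairs of mirror digits -/

/-- `c + γ v`, where `v` is the integer with the following `k` digits in base `b`: `(d i).1` at the place `i` and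
`(d i).2` at the mirror place `k - 1 - i`, for `i < k / 2`, and, if `k` is odd, `z` in the middle. -/
def value (b k : ℕ) (γ c : ℤ) (d : Fin (k / 2) → ℕ × ℕ) (z : ℕ) : ℤ :=
  c + γ * ((∑ i : Fin (k / 2), ((d i).1 * b ^ (i : ℕ) + (d i).2 * b ^ (k - 1 - (i : ℕ))) + k % 2 * z * b ^ (k / 2) : ℕ) : ℤ)

open Classical in
/-- The probability of the event `E` if the pairs of digits `d i`, `i < k / 2`, and the middle digit `z` are chosen
independently of each other, `d i` is equal to `a` with probability `w i a`, and `z` is equal to `a` with probability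
`u a`. -/
noncomputable def Prob (b k : ℕ) (w : ℕ → ℕ × ℕ → ℝ) (u : ℕ → ℝ) (E : (Fin (k / 2) → ℕ × ℕ) → ℕ → Prop) : ℝ :=
  ∑ d ∈ Fintype.piFinset (fun _ : Fin (k / 2) => range b ×ˢ range b), ∑ z ∈ range b,
    if E d z then (∏ i : Fin (k / 2), w i (d i)) * u z else 0

/-- The numbers `w i a`, `i < k / 2`, are distributions of a pair `a` of digits in base `b`, and, for `i ≥ 1`, two
independent copies of the pair differ in BOTH digits with a probability of at least `η`. -/
structure Pairs (b k : ℕ) (η : ℝ) (w : ℕ → ℕ × ℕ → ℝ) : Prop where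
  nonneg : ∀ i < k / 2, ∀ a, 0 ≤ w i a
  sum : ∀ i < k / 2, ∑ a ∈ range b ×ˢ range b, w i a = 1
  differ : ∀ i < k / 2, 1 ≤ i → η ≤ ∑ a ∈ range b ×ˢ range b, ∑ a' ∈ range b ×ˢ range b,
    if a.1 ≠ a'.1 ∧ a.2 ≠ a'.2 then w i a * w i a' else 0

/-! The families -/

/-- Almost all the integers `c + γ v` have the property `P`, up to a proportion of at most `1 / k ^ U`, if `v` runs through
* the integers with the digits `d` in an arbitrary order, for arbitrary `k` digits `d` none of which is taken at more than
  `(1 - η) k` places (all orders `σ` are counted),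
* the palindromes with exactly `k` digits,
* the random integers with independent pairs of mirror digits (arbitrary distributions `w i` of the pairs such that, for
  `i ≥ 1`, two independent copies of the pair differ in both digits with a probability of at least `η`; if `k` is odd, `u`
  is the distribution of the middle digit). -/
def Digits (b k U : ℕ) (γ c : ℤ) (η : ℝ) (P : ℤ → Prop) : Prop :=
  (∀ d : Fin k → ℕ, Spread b k η d →
    count univ (fun σ => ¬ P (c + γ * (V b d σ : ℕ))) ≤ k.factorial / (k : ℝ) ^ U) ∧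
  (num b k (fun v => ¬ P (c + γ * v)) : ℝ) ≤ num b k (fun _ => True) / (k : ℝ) ^ U ∧
  (∀ (w : ℕ → ℕ × ℕ → ℝ) (u : ℕ → ℝ), Pairs b k η w → (∀ a, 0 ≤ u a) → ∑ a ∈ range b, u a = 1 →
    Prob b k w u (fun d z => ¬ P (value b k γ c d z)) ≤ 1 / (k : ℝ) ^ U)

/-- The integers below `b ^ k` whose `i`-th digit in base `b` lies in `D i`, for all `i < k`. -/
def S (b : ℕ) (D : ℕ → Finset ℕ) (k : ℕ) : Finset ℕ :=
  (range (b ^ k)).filter (fun n : ℕ => ∀ i < k, n / b ^ i % b ∈ D i)

/-- For arbitrary sets `D 0, ..., D (k - 1)` of at least two digits in base `b`, almost all the integers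
`c + γ m ^ 2 + β m` have the property `P`, if `m` runs through the integers below `b ^ k` whose `i`-th digit lies in `D i`
for all `i < k`, up to a proportion of at most `1 / k ^ U`. -/
def Quadratics (b k U : ℕ) (γ β c : ℤ) (P : ℤ → Prop) : Prop :=
  ∀ D : ℕ → Finset ℕ, (∀ i < k, D i ⊆ range b ∧ 2 ≤ (D i).card) →
    count (S b D k) (fun m => ¬ P (c + γ * (m : ℤ) ^ 2 + β * m)) ≤ (S b D k).card / (k : ℝ) ^ U

/-- The Liouville function on the integers, `λ(-m) = λ(m)` and `λ(0) = 0`. -/
def lam (m : ℤ) : ℤ := if m = 0 then 0 else (-1) ^ ArithmeticFunction.cardFactors m.natAbs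

/-- For all `l`, all residue classes `r` modulo `q ≤ k ^ T` and all integers `u`, `v` with `α l |u| ≤ B N` and
`α l |v| ≤ B N`: the sum of `λ(f l (n) (α l n + h))` over the integers `n` with `u ≤ n ≤ v` and `n ≡ r mod q` is at most
`N / k ^ U` in absolute value. -/
def Small (B T U N k : ℕ) {L : ℕ} (f : Fin L → Polynomial ℤ) (α : Fin L → ℕ) (h : ℤ) : Prop :=
  ∀ l, ∀ q : ℕ, 1 ≤ q → q ≤ k ^ T → ∀ r u v : ℤ, (α l : ℤ) * |u| ≤ B * N → (α l : ℤ) * |v| ≤ B * N →
    |((∑ n ∈ (Icc u v).filter (fun n => n ≡ r [ZMOD q]), lam ((f l).eval n * (α l * n + h)) : ℤ) : ℝ)| ≤ N / (k : ℝ) ^ U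

/-- The property `P` holds for all the integers at a distance of at most `k ^ W` from `h`. -/
def Near (W k : ℕ) (P : ℤ → Prop) (h : ℤ) : Prop := ∀ h' : ℤ, |h' - h| ≤ (k : ℤ) ^ W → P h'

/-- Let `b ≥ 2`, `B`, `T`, `W`, `U`, the integers `γ ≠ 0` and `β`, and `η > 0` be fixed, and let `k` be large. Let at most
`k ^ T` pairs of a polynomial `f l` with integer coefficients (of any degree) and of an integer `α l ≥ 1` be given.

* Let `N = b ^ k` and `|c| ≤ B N`. For almost all the rearrangements `v` of arbitrary `k` digits, for almost all the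
  palindromes `v` with `k` digits, and with high probability for random integers `v` with independent pairs of mirror
  digits (the proportion of the exceptions is at most `1 / k ^ U`): ALL the integers `h` at a distance of at most
  `k ^ W` from `c + γ v` satisfy `|∑ λ(f l (n) (α l n + h))| ≤ N / k ^ U` for all `l`, the sum over the `n ≡ r mod q` in an
  arbitrary interval `[u, v]` of integers with `α l |u|, α l |v| ≤ B N`, for all residue classes `r` modulo all `q ≤ k ^ T`.
* Let `N = b ^ (2 k)` and `|c| ≤ B N`. The same holds for all the integers `h` at a distance of at most `k ^ W` from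
  `c + γ m ^ 2 + β m`, for almost all the integers `m` below `b ^ k` whose `i`-th digit lies in the given set `D i` of at
  least two digits, for all `i < k`. -/
theorem result (b B T W U : ℕ) (hb : 2 ≤ b) (γ β : ℤ) (hγ : γ ≠ 0) (η : ℝ) (hη : 0 < η) :
    ∃ k₀ : ℕ, ∀ k : ℕ, k₀ ≤ k → ∀ L : ℕ, L ≤ k ^ T → ∀ (f : Fin L → Polynomial ℤ) (α : Fin L → ℕ), (∀ l, 1 ≤ α l) →
      (∀ c : ℤ, |c| ≤ B * (b : ℤ) ^ k → Digits b k U γ c η (Near W k (Small B T U (b ^ k) k f α))) ∧
      (∀ c : ℤ, |c| ≤ B * (b : ℤ) ^ (2 * k) →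
        Quadratics b k U γ β c (Near W k (Small B T U (b ^ (2 * k)) k f α))) := by
  obtain ⟨k1, h1⟩ := Pool.Agent.R501.CP.dig_near b B T W U hb γ hγ η hη
  obtain ⟨k2, h2⟩ := Pool.Agent.R501.CP.quad_near b B T W U hb γ β hγ
  have key : ∀ (N k L : ℕ) (f : Fin L → Polynomial ℤ) (α : Fin L → ℕ) (v : ℤ),
      Pool.Agent.R459.Shift.Near W k (fun h => ∀ l, Pool.Agent.R501.CP.One B T U N k (f l) (α l) h) v →
      Near W k (Small B T U N k f α) v := by
    intro N k L f α v hv v' hv' l q hq1 hq2 r u w hu hw
    have h3 := hv v' hv' l 0 univ ⟨0, mem_univ _⟩ q hq1 hq2 r u w fun i _ => ⟨hu, hw⟩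
    refine le_trans (le_of_eq ?_) h3
    congr 2
    unfold Pool.Agent.R501.CP.lamSum
    apply sum_congr rfl
    intro n _
    change lam _ = lam _
    rw [Fin.prod_univ_one]
    simp only [Polynomial.eval_add, Polynomial.eval_mul, Polynomial.eval_C, Polynomial.eval_X]
  refine ⟨k1 + k2, fun k hk L hL f α hα => ⟨fun c hc => ?_, fun c hc => ?_⟩⟩
  · obtain ⟨g1, g2, g3⟩ := (h1 k (by omega) c hc L hL f α hα).mono fun v hv => key _ _ _ _ _ _ hv
    exact ⟨fun d hd => g1 d ⟨hd.lt, hd.few⟩, g2, fun w u hw hu hu1 => g3 w u ⟨hw.nonneg, hw.sum, hw.differ⟩ hu hu1⟩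
  · exact (h2 k (by omega) c hc L hL f α hα).mono fun v hv => key _ _ _ _ _ _ hv

end Pool.Agent.Results.MP_d639b3_nt.NearDigitFamilies
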