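import Pool.Agent.R460.SL.Two

set_option autoImplicit false

/-!
# Quadratic polynomials with constant terms in thin classes, two-sided progressions

The case `h = 1`, `d = 2`, for almost all constant terms in a residue class of an arbitrary modulus
`q ≤ X ^ (1 / 2 - ρ)`, uniformly in the other coefficients and in the progression. The proof is in `R460/SL`: the
circle method in the class; the values of the polynomial which are not coprime to the modulus are sorted by their
greatest common divisor with it; bad characters of large conductor are treated by complete sums.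
-/

namespace Pool.Agent.Results.MP_d639b3_nt.QuadraticsThinClasses

open Finset

/-- The Liouville function on the integers (with the value `0` at `0`). -/
def lam (v : ℤ) : ℤ := if v = 0 then 0 else (-1) ^ ArithmeticFunction.cardFactors v.natAbs

/-- The sum of `λ(a t² + b t + c)` over the integers `t`, `|t| ≤ y`, with `t ≡ r (mod s)`. -/
noncomputable def lamSum (a b c s r : ℤ) (y : ℕ) : ℤ :=
  ∑ t ∈ (Icc (-(y : ℤ)) y).filter (fun t : ℤ => t ≡ r [ZMOD s]), lam (a * t ^ 2 + b * t + c)

/-- The conclusion for one constant term `c`: the bound for all quadratic polynomials with the constant term `c`,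
all progressions `r` modulo `s ≤ (log X)^κ` and all `y ≤ √X`. -/
def Good (C T κ X q : ℕ) (c : ℤ) : Prop :=
  ∀ a b : ℤ, a ≠ 0 → (|a| : ℝ) ≤ Real.log X ^ κ → (|b| : ℝ) ≤ Real.log X ^ κ →
    (Int.gcd (b ^ 2 - 4 * a * c) q : ℝ) ≤ Real.log X ^ T →
    ∀ (s : ℕ) (r : ℤ) (y : ℕ), 1 ≤ s → (s : ℝ) ≤ Real.log X ^ κ → y ^ 2 ≤ X →
      |((lamSum a b c s r y : ℤ) : ℝ)| ≤ Real.sqrt X / Real.log X ^ C

open Classical in
/-- The number of the integers `c`, `|c| ≤ X`, `c ≡ c₀ (mod q)`, for which the conclusion fails. -/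
noncomputable def exceptions (C T κ X q : ℕ) (c₀ : ℤ) : ℕ :=
  ((Icc (-(X : ℤ)) X).filter (fun c : ℤ => c ≡ c₀ [ZMOD q] ∧ ¬ Good C T κ X q c)).card

theorem result (ρ : ℝ) (hρ : 0 < ρ) (A C T κ : ℕ) :
    ∃ X₀ : ℕ, ∀ X : ℕ, X₀ ≤ X →
      ∀ q : ℕ, 1 ≤ q → (q : ℝ) ≤ (X : ℝ) ^ (1 / 2 - ρ) → (q.divisors.card : ℝ) ≤ Real.log X ^ T →
      ∀ c₀ : ℤ, (exceptions C T κ X q c₀ : ℝ) ≤ X / (q * Real.log X ^ A) :=
  Pool.Agent.R460.SL.fin_two ρ hρ A C T κ

end Pool.Agent.Results.MP_d639b3_nt.QuadraticsThinClasses
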