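import Pool.Agent.R501.CP4

/-!
# The Liouville function at the values of arbitrary polynomials times linear factors, the constant terms of which are
members of thin families, or values of fixed polynomials: every scale, arbitrary powers of the logarithm

From the starting files: Davenport's bound for the exponential sums over the Liouville function and the bilinear
inequality for families of small additive energy (`Pool.Agent.H373R2.T7`, `Pool.Agent.H807R2.Dav`, `Pool.Agent.TH823.Fam`);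
the theorem on one displaced factor is `Pool.Agent.R459.fam_near` (helper459).
From Mathlib: `ArithmeticFunction.cardFactors m`: the number of prime factors of `m` with multiplicity;
`Finset.Icc u v`: the integers `n` with `u ≤ n ≤ v`; `n ≡ r [ZMOD q]`: congruence modulo `q`;
`Polynomial ℤ`: the polynomials with integer coefficients; `f.eval m`: the value at `m`.
-/

set_option autoImplicit false

namespace Pool.Agent.Results.MP_d639b3_nt.ThinFamilyConstants

open Finset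

/-- The Liouville function on the integers, `λ(-m) = λ(m)` and `λ(0) = 0`. -/
def lam (m : ℤ) : ℤ := if m = 0 then 0 else (-1) ^ ArithmeticFunction.cardFactors m.natAbs

/-- The additive energy of order `p` of the family `b 1, ..., b x`: the number of the solutions of
`b (v 1) + ... + b (v p) = b (w 1) + ... + b (w p)` with all `v i`, `w i` in `{1, ..., x}`. -/
def energy (p x : ℕ) (b : ℕ → ℤ) : ℕ :=
  (((Fintype.piFinset fun _ : Fin p => Icc 1 x) ×ˢ (Fintype.piFinset fun _ : Fin p => Icc 1 x)).filter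
    (fun q => ∑ i, b (q.1 i) = ∑ i, b (q.2 i))).card

/-- The sum of `λ(F(n))` over the integers `n` with `u ≤ n ≤ v` and `n ≡ r mod q`, where `F` is the product of the
polynomial `f` and of the polynomials `α i T + a i`, `i ∈ I`. -/
noncomputable def lamSum {s : ℕ} (f : Polynomial ℤ) (α : Fin s → ℕ) (a : Fin s → ℤ) (I : Finset (Fin s)) (q : ℕ)
    (r u v : ℤ) : ℤ :=
  ∑ n ∈ (Icc u v).filter (fun n => n ≡ r [ZMOD q]),
    lam ((f * ∏ i ∈ I, (Polynomial.C (α i : ℤ) * Polynomial.X + Polynomial.C (a i))).eval n)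

/-- All the sums are small: for all `l`, all nonempty sets `I` of indices, all residue classes `r` modulo
`q ≤ log ^ κ N` and all integers `u`, `v` with `α i |u| ≤ B N` and `α i |v| ≤ B N` for all `i ∈ I`, the sum of `λ(F(n))`
over the `n` with `u ≤ n ≤ v` and `n ≡ r mod q` is at most `N / log ^ U N` in absolute value, where
`F = f l * ∏ i ∈ I, (α i T + a i)`. -/
def Small (B κ U N : ℕ) {s L : ℕ} (f : Fin L → Polynomial ℤ) (α : Fin s → ℕ) (a : Fin s → ℤ) : Prop :=
  ∀ l, ∀ I : Finset (Fin s), I.Nonempty → ∀ q : ℕ, 1 ≤ q → (q : ℝ) ≤ Real.log N ^ κ → ∀ r u v : ℤ,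
    (∀ i ∈ I, (α i : ℤ) * |u| ≤ B * N ∧ (α i : ℤ) * |v| ≤ B * N) →
    |((lamSum (f l) α a I q r u v : ℤ) : ℝ)| ≤ N / Real.log N ^ U

open Classical in
/-- The number of the tuples `(m 1, ..., m s)` with `1 ≤ m i ≤ x i` for all `i` which have the property `E`. -/
noncomputable def num {s : ℕ} (x : Fin s → ℕ) (E : (Fin s → ℕ) → Prop) : ℝ :=
  (((Fintype.piFinset fun i => Icc 1 (x i)).filter E).card : ℝ)

lemma num_mono {s : ℕ} {x : Fin s → ℕ} {E E' : (Fin s → ℕ) → Prop} (h : ∀ m, E m → E' m) : num x E ≤ num x E' := by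
  classical
  unfold num
  rw [Nat.cast_le]
  apply card_le_card
  intro m hm
  rw [mem_filter] at hm ⊢
  exact ⟨hm.1, h m hm.2⟩

theorem families (B C κ U P : ℕ) : ∃ N₀ : ℕ, ∀ N : ℕ, N₀ ≤ N → ∀ s L : ℕ, (2 : ℝ) ^ s ≤ Real.log N ^ κ →
    (L : ℝ) ≤ Real.log N ^ κ → ∀ (x p : Fin s → ℕ) (b : Fin s → ℕ → ℤ), (∀ i, p i ≤ P) →
    (∀ i, ∀ m ∈ Icc 1 (x i), |b i m| ≤ B * N) →
    (∀ i, (energy (p i) (x i) (b i) : ℝ) * N ≤ Real.log N ^ C * (x i : ℝ) ^ (2 * p i)) →
    ∀ α : Fin s → ℕ, (∀ i, 1 ≤ α i) → ∀ f : Fin L → Polynomial ℤ,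
    num x (fun m => ¬ Small B κ U N f α (fun i => b i (m i))) ≤ (∏ i, (x i : ℝ)) / Real.log N ^ U := by
  classical
  obtain ⟨N₀, h0⟩ := Pool.Agent.R501.CP.thin_chowla B C (κ + 1) (U + 1) P
  obtain ⟨N1, h1⟩ := Pool.Agent.R501.CP.floor_log κ
  obtain ⟨N2, h2⟩ := Pool.Agent.R501.CP.floor_log U
  refine ⟨N₀ + N1 + N2, fun N hN s L hs hL x p b hp hb hE α hα f => ?_⟩
  obtain ⟨k, hk⟩ : ∃ k, k = ⌊Real.log (N : ℝ)⌋₊ := ⟨_, rfl⟩
  obtain ⟨hk3, hκ, -, hkL⟩ := h1 N (by omega)
  obtain ⟨-, hU, -, -⟩ := h2 N (by omega)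
  rw [← hk] at hk3 hκ hkL hU
  have hk0 : (0 : ℝ) < k := by exact_mod_cast (by omega : 0 < k)
  have hlog0 : (0 : ℝ) < Real.log N := by linarith
  have hs' : 2 ^ s ≤ k ^ (κ + 1) := by
    have : (2 : ℝ) ^ s ≤ (k : ℝ) ^ (κ + 1) := hs.trans hκ
    exact_mod_cast this
  have hL' : L ≤ k ^ (κ + 1) := by
    have : (L : ℝ) ≤ (k : ℝ) ^ (κ + 1) := hL.trans hκ
    exact_mod_cast this
  have key := h0 N (by omega) k hk s L hs' hL' x p b hp hb hE α hα f
  have hsub : ∀ a : Fin s → ℤ, Pool.Agent.R501.CP.Chowla B (κ + 1) (U + 1) N k f α a → Small B κ U N f α a := by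
    intro a hcon l I hI q hq1 hq2 r u v huv
    have hq' : q ≤ k ^ (κ + 1) := by
      have : (q : ℝ) ≤ (k : ℝ) ^ (κ + 1) := hq2.trans hκ
      exact_mod_cast this
    refine (hcon l I hI q hq1 hq' r u v huv).trans ?_
    exact div_le_div_of_nonneg_left (Nat.cast_nonneg _) (by positivity) hU
  have hmono : num x (fun m => ¬ Small B κ U N f α (fun i => b i (m i))) ≤
      num x (fun m => ¬ Pool.Agent.R501.CP.Chowla B (κ + 1) (U + 1) N k f α (fun i => b i (m i))) :=
    num_mono fun m hm hc => hm (hsub _ hc)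
  rw [Pool.Agent.R459.Fams.count_eq] at key
  refine hmono.trans (le_trans (le_of_eq ?_) (key.trans ?_))
  · unfold num
    congr!
  · exact div_le_div_of_nonneg_left (prod_nonneg fun _ _ => Nat.cast_nonneg _) (by positivity) hU

/-- Let `B`, `C`, `κ` and `U` be fixed, let `N` be large, and `2 ^ s ≤ log ^ κ N`. Let `α 1, ..., α s ≥ 1` be arbitrary
integers, and let `f l`, where `l` ranges over at most `log ^ κ N` indices, be arbitrary polynomials with integer
coefficients (of any degree).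

* For `i = 1, ..., s` let `b i 1, ..., b i (x i)` be an arbitrary family of integers in `[-B N, B N]` whose additive energy
  of some order `p i ≤ P` (`P` fixed) is at most `log ^ C N` times `(x i) ^ (2 p i) / N`. Then for all the tuples
  `(m 1, ..., m s)` with `1 ≤ m i ≤ x i`, up to a proportion of `1 / log ^ U N` of them, the integers `a i = b i (m i)` have
  the following property: `|∑ λ(F(n))| ≤ N / log ^ U N` for all `l` and all nonempty sets `I` of indices, where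
  `F = f l * ∏ i ∈ I, (α i T + a i)`, the sum over the `n ≡ r mod q` in an arbitrary interval `[u, v]` with
  `α i |u|, α i |v| ≤ B N` for all `i ∈ I`, for all residue classes `r` modulo all `q ≤ log ^ κ N`.
* In particular this holds for `a i = c i + G (m i)`, where `|c i| ≤ B N`, and `G = F (t i)` is one of finitely many fixed
  nonconstant polynomials `F j` with integer coefficients, of degree `d`, and `N / log ^ C N ≤ (x i) ^ d ≤ B N`. -/
theorem result (B C κ U : ℕ) :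
    (∀ P : ℕ, ∃ N₀ : ℕ, ∀ N : ℕ, N₀ ≤ N → ∀ s L : ℕ, (2 : ℝ) ^ s ≤ Real.log N ^ κ →
      (L : ℝ) ≤ Real.log N ^ κ → ∀ (x p : Fin s → ℕ) (b : Fin s → ℕ → ℤ), (∀ i, p i ≤ P) →
      (∀ i, ∀ m ∈ Icc 1 (x i), |b i m| ≤ B * N) →
      (∀ i, (energy (p i) (x i) (b i) : ℝ) * N ≤ Real.log N ^ C * (x i : ℝ) ^ (2 * p i)) →
      ∀ α : Fin s → ℕ, (∀ i, 1 ≤ α i) → ∀ f : Fin L → Polynomial ℤ,
      num x (fun m => ¬ Small B κ U N f α (fun i => b i (m i))) ≤ (∏ i, (x i : ℝ)) / Real.log N ^ U) ∧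
    (∀ (r : ℕ) (F : Fin r → Polynomial ℤ), (∀ j, 1 ≤ (F j).natDegree) → ∃ N₀ : ℕ, ∀ N : ℕ, N₀ ≤ N →
      ∀ s L : ℕ, (2 : ℝ) ^ s ≤ Real.log N ^ κ → (L : ℝ) ≤ Real.log N ^ κ → ∀ (t : Fin s → Fin r) (x : Fin s → ℕ),
      (∀ i, x i ^ (F (t i)).natDegree ≤ B * N ∧ (N : ℝ) ≤ Real.log N ^ C * (x i : ℝ) ^ (F (t i)).natDegree) →
      ∀ c : Fin s → ℤ, (∀ i, |c i| ≤ B * N) → ∀ α : Fin s → ℕ, (∀ i, 1 ≤ α i) → ∀ f : Fin L → Polynomial ℤ,
      num x (fun m => ¬ Small B κ U N f α (fun i => c i + (F (t i)).eval (m i : ℤ))) ≤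
        (∏ i, (x i : ℝ)) / Real.log N ^ U) := by
  classical
  refine ⟨families B C κ U, fun r F hF => ?_⟩
  have h0 := fun j : Fin r => Pool.Agent.TH823.Fam.poly_family (F j) (hF j) B C
  choose p B' hB N0 h1 using h0
  obtain ⟨P, hP⟩ : ∃ P : ℕ, ∀ j, p j ≤ P := ⟨∑ j, p j, fun j => single_le_sum (f := p) (fun _ _ => Nat.zero_le _) (mem_univ j)⟩
  obtain ⟨B₁, hB₁⟩ : ∃ B₁ : ℕ, B ≤ B₁ ∧ ∀ j, B' j ≤ B₁ := ⟨B + ∑ j, B' j, by omega, fun j =>
    (single_le_sum (f := B') (fun _ _ => Nat.zero_le _) (mem_univ j)).trans (by omega)⟩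
  obtain ⟨N₁, hN₁⟩ : ∃ N₁ : ℕ, ∀ j, N0 j ≤ N₁ := ⟨∑ j, N0 j, fun j => single_le_sum (f := N0) (fun _ _ => Nat.zero_le _) (mem_univ j)⟩
  obtain ⟨N2, h2⟩ := families B₁ (C + 1) κ U P
  refine ⟨N₁ + N2, fun N hN s L hs hL t x hx c hc α hα f => ?_⟩
  have key := h2 N (by omega) s L hs hL x (fun i => p (t i)) (fun i m => c i + (F (t i)).eval (m : ℤ)) (fun i => hP _)
    (fun i m hm => by
      have h3 := (h1 (t i) N ((hN₁ _).trans (by omega)) (x i) (hx i).1 (hx i).2 (c i) (hc i)).1 m hm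
      refine h3.trans ?_
      apply mul_le_mul_of_nonneg_right _ (Int.natCast_nonneg _)
      exact_mod_cast hB₁.2 (t i))
    (fun i => (h1 (t i) N ((hN₁ _).trans (by omega)) (x i) (hx i).1 (hx i).2 (c i) (hc i)).2) α hα f
  have hsub : ∀ a : Fin s → ℤ, Small B₁ κ U N f α a → Small B κ U N f α a := by
    intro a hcon l I hI q hq1 hq2 r' u v huv
    refine hcon l I hI q hq1 hq2 r' u v fun i hi => ?_
    obtain ⟨h5, h6⟩ := huv i hi
    have h7 : (B : ℤ) * N ≤ (B₁ : ℤ) * N := by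
      apply mul_le_mul_of_nonneg_right _ (Int.natCast_nonneg _)
      exact_mod_cast hB₁.1
    exact ⟨h5.trans h7, h6.trans h7⟩
  have hmono : num x (fun m => ¬ Small B κ U N f α (fun i => c i + (F (t i)).eval (m i : ℤ))) ≤
      num x (fun m => ¬ Small B₁ κ U N f α (fun i => c i + (F (t i)).eval (m i : ℤ))) :=
    num_mono fun m hm hc => hm (hsub _ hc)
  exact hmono.trans key

end Pool.Agent.Results.MP_d639b3_nt.ThinFamilyConstants
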